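import Pool.Agent.Q188.EinN.Val

/-!
# The expansion to second order with a dimension free remainder
-/

set_option autoImplicit false

namespace Pool.Agent.Q188.EinN

open Finset Pool.Agent.W666.GB

/-- the arithmetic estimate for one term -/
theorem term_le' (m k : ℕ) (hk : 0 < k) (hkm : k ≤ m) (κ : ℝ) (hκ : 0 < κ) (s : ℝ) (hs : 0 ≤ s) :
    (m.choose k : ℝ) * (κ ^ (m - k) * ((2 * m).factorial / ((2 * m).descFactorial (2 * k) *
      (2 * k).factorial) * (k.factorial * (21600 * Real.exp 1 * (k : ℝ) ^ 2 *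
        (s * κ * (2 * m))) ^ k))) ≤
    (κ ^ m * (2 * m).factorial) * (2 / Real.exp 1 ^ 2 *
      (2700 * Real.exp 1 ^ 5 * s) ^ k) := by
  have he := Real.exp_pos 1
  have hm : 0 < m := lt_of_lt_of_le hk hkm
  have hm' : (0 : ℝ) < m := by exact_mod_cast hm
  have hk' : (0 : ℝ) < k := by exact_mod_cast hk
  set e := Real.exp 1 with hedef
  have h1 : (m.choose k : ℝ) * k.factorial ≤ (m : ℝ) ^ k := by
    have : m.choose k * k.factorial ≤ m ^ k := by
      rw [mul_comm, ← Nat.descFactorial_eq_factorial_mul_choose]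
      exact Nat.descFactorial_le_pow m k
    exact_mod_cast this
  have h2 : ((2 * m : ℕ) : ℝ) ^ (2 * k) ≤ e ^ (2 * k) * ((2 * m).descFactorial (2 * k) : ℝ) :=
    pow_le_exp_desc (2 * m) (2 * k) (by omega)
  have h3 : ((2 * k : ℕ) : ℝ) ^ (2 * k) * e ^ 2 ≤ 2 * e ^ (2 * k) * (2 * k).factorial :=
    pow_self_le (2 * k) (by omega)
  have hD : (0 : ℝ) < ((2 * m).descFactorial (2 * k) : ℝ) := by
    have : 0 < (2 * m).descFactorial (2 * k) := Nat.descFactorial_pos.mpr (by omega)
    exact_mod_cast this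
  have hF : (0 : ℝ) < ((2 * k).factorial : ℝ) := by exact_mod_cast (2 * k).factorial_pos
  have hM : (0 : ℝ) < ((2 * m).factorial : ℝ) := by exact_mod_cast (2 * m).factorial_pos
  set D := ((2 * m).descFactorial (2 * k) : ℝ)
  set F := ((2 * k).factorial : ℝ)
  set M := ((2 * m).factorial : ℝ)
  push_cast at h2 h3
  have hκp : κ ^ (m - k) * κ ^ k = κ ^ m := by rw [← pow_add, Nat.sub_add_cancel hkm]
  have e1 : (m.choose k : ℝ) * (κ ^ (m - k) * (M / (D * F) * (k.factorial *
      (21600 * e * (k : ℝ) ^ 2 * (s * κ * (2 * m))) ^ k))) =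
      (κ ^ m * M) * (((m.choose k : ℝ) * k.factorial) * (21600 * e * s) ^ k *
        ((k : ℝ) ^ (2 * k) / F) * ((2 * m : ℝ) ^ k / D)) := by
    rw [← hκp]
    have : (21600 * e * (k : ℝ) ^ 2 * (s * κ * (2 * m))) ^ k =
        κ ^ k * (21600 * e * s) ^ k * (k : ℝ) ^ (2 * k) * (2 * m : ℝ) ^ k := by
      rw [pow_mul, ← mul_pow, ← mul_pow, ← mul_pow]
      congr 1
      ring
    rw [this]
    field_simp
  rw [e1]
  refine mul_le_mul_of_nonneg_left ?_ (by positivity)
  have h4 : (k : ℝ) ^ (2 * k) / F ≤ 2 / e ^ 2 * (e ^ 2 / 4) ^ k := by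
    rw [div_le_iff₀ hF]
    have e2 : (2 * (k : ℝ)) ^ (2 * k) = 4 ^ k * (k : ℝ) ^ (2 * k) := by
      rw [mul_pow, pow_mul 2 2 k]; norm_num
    rw [e2] at h3
    have h5 : (k : ℝ) ^ (2 * k) * (4 ^ k * e ^ 2) ≤ 2 * e ^ (2 * k) * F := by linarith
    rw [← le_div_iff₀ (by positivity)] at h5
    refine h5.trans (le_of_eq ?_)
    rw [div_pow, ← pow_mul]
    field_simp
  have h6 : (2 * m : ℝ) ^ k / D ≤ e ^ (2 * k) / (2 * m : ℝ) ^ k := by
    rw [div_le_div_iff₀ hD (by positivity), ← pow_add, ← two_mul]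
    exact h2
  calc ((m.choose k : ℝ) * k.factorial) * (21600 * e * s) ^ k *
        ((k : ℝ) ^ (2 * k) / F) * ((2 * m : ℝ) ^ k / D)
      ≤ (m : ℝ) ^ k * (21600 * e * s) ^ k *
        (2 / e ^ 2 * (e ^ 2 / 4) ^ k) * (e ^ (2 * k) / (2 * m : ℝ) ^ k) := by
        gcongr
    _ = 2 / e ^ 2 * ((m : ℝ) * (21600 * e * s) * (e ^ 2 / 4) *
          (e ^ 2 / (2 * m : ℝ))) ^ k := by
        rw [pow_mul e 2 k]
        simp only [mul_pow, div_pow]
        ring
    _ = 2 / e ^ 2 * (2700 * e ^ 5 * s) ^ k := by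
        congr 2
        field_simp
        ring

/-- the tail of a geometric series -/
theorem geo_tail (q : ℝ) (hq0 : 0 ≤ q) (hq : q ≤ 1 / 2) (n : ℕ) :
    ∑ k ∈ Finset.range n, q ^ (k + 3) ≤ 2 * q ^ 3 := by
  have h1 : ∑ k ∈ Finset.range n, q ^ (k + 3) = q ^ 3 * ∑ k ∈ Finset.range n, q ^ k := by
    rw [Finset.mul_sum]
    exact Finset.sum_congr rfl fun k _ => by ring
  have h2 : ∑ k ∈ Finset.range n, q ^ k ≤ 2 := by
    have h3 : (∑ k ∈ Finset.range n, q ^ k) * (1 - q) = 1 - q ^ n := by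
      have := geom_sum_mul q n
      linarith
    have h4 : 0 ≤ q ^ n := pow_nonneg hq0 n
    have h5 : 0 ≤ ∑ k ∈ Finset.range n, q ^ k := Finset.sum_nonneg fun k _ => pow_nonneg hq0 k
    nlinarith
  rw [h1]
  have := mul_le_mul_of_nonneg_left h2 (pow_nonneg hq0 3)
  linarith

section

variable {B : Type*} [Fintype B] [DecidableEq B]
  {E : B × Bool → B × Bool → B × Bool → B × Bool → ℝ}

/-- **Expansion to second order.** -/
theorem expand_two (hE : Sym4 E) (hb : ∀ a b c d, E a b c d + E a c d b + E a d b c = 0)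
    (hr : ∀ j l, ricc E j l = 0) {κ : ℝ} (hκ : 0 < κ) {s : ℝ} (hs : 0 ≤ s)
    (hB : 2 ≤ Fintype.card B)
    (hN : ∑ i, ∑ j, ∑ p, ∑ l, E i j p l ^ 2 = (s * κ * (2 * Fintype.card B)) ^ 2)
    (hq : 2700 * Real.exp 1 ^ 5 * s ≤ 1 / 2) :
    |Yf (fun a b c d => κ * (if a = b then 1 else 0) * (if c = d then 1 else 0) + Cl E a b c d) -
      κ ^ Fintype.card B * (2 * Fintype.card B).factorial *
        (1 + (s * (2 * Fintype.card B)) ^ 2 / (8 * (2 * Fintype.card B - 1) *
          (2 * Fintype.card B - 3)))| ≤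
      κ ^ Fintype.card B * (2 * Fintype.card B).factorial *
        (4 / Real.exp 1 ^ 2 * (2700 * Real.exp 1 ^ 5 * s) ^ 3) := by
  set m := Fintype.card B with hm
  have hmR : (2 : ℝ) ≤ m := by exact_mod_cast hB
  set N := ∑ i, ∑ j, ∑ p, ∑ l, E i j p l ^ 2 with hNdef
  have ha0 : 0 ≤ s * κ * (2 * m) := by positivity
  have hscal : ∑ i, ricc E i i = 0 := Finset.sum_eq_zero fun i _ => hr i i
  have hric : ∑ i, ∑ j, ricc E i j ^ 2 ≤ (s * κ * (2 * m)) ^ 2 := by
    have : ∑ i, ∑ j, ricc E i j ^ 2 = 0 := by simp [hr]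
    rw [this]; positivity
  set t : Finset B → ℝ := fun T => κ ^ (m - T.card) *
    ∑ σ : Equiv.Perm (B × Bool), yf (pb (Cl E) (σ ∘ iT T)) with ht
  set ex : ℕ → ℝ := fun k => if k = 0 then κ ^ m * (2 * m).factorial else
    if k = 2 then κ ^ (m - 2) * ((2 * m).factorial / ((2 * m).descFactorial 4) * N) else 0 with hex
  set bd : ℕ → ℝ := fun k => if k ≤ 2 then 0 else κ ^ (m - k) * ((2 * m).factorial /
    ((2 * m).descFactorial (2 * k) * (2 * k).factorial) * (k.factorial *
          (21600 * Real.exp 1 * (k : ℝ) ^ 2 * (s * κ * (2 * m))) ^ k)) with hbd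
  have c1 : Fintype.card (B × Bool) = 2 * m := by
    rw [Fintype.card_prod, Fintype.card_bool]; ring
  -- each term
  have hterm : ∀ T : Finset B, |t T - ex T.card| ≤ bd T.card := by
    intro T
    have hTc : Fintype.card T = T.card := Fintype.card_coe T
    have hTm : T.card ≤ m := Finset.card_le_univ T
    have c2 : Fintype.card (T × Bool) = 2 * T.card := by
      rw [Fintype.card_prod, Fintype.card_bool, hTc]; ring
    have h5 := sum_perm_eq (fun i : T × Bool → B × Bool => yf (pb (Cl E) i))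
      (fun i hi => yf_noninj (Cl E) i hi) (iT T) (iT_injective T)
    rw [c1, c2] at h5
    have hD : (0 : ℝ) < ((2 * m).descFactorial (2 * T.card) : ℝ) := by
      have : 0 < (2 * m).descFactorial (2 * T.card) := Nat.descFactorial_pos.mpr (by omega)
      exact_mod_cast this
    rcases Nat.lt_or_ge T.card 3 with hk | hk
    · have hb0 : bd T.card = 0 := by simp only [hbd, if_pos (by omega : T.card ≤ 2)]
      rw [hb0]
      have hk' : T.card = 0 ∨ T.card = 1 ∨ T.card = 2 := by omega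
      rcases hk' with h0 | h0 | h0
      · have hT : T = ∅ := Finset.card_eq_zero.1 h0
        subst hT
        have : ∀ σ : Equiv.Perm (B × Bool), yf (pb (Cl E) (σ ∘ iT (∅ : Finset B))) = 1 := by
          intro σ
          simp [yf, sn]
        simp only [ht, hex, this, Finset.card_empty, if_true, Nat.sub_zero]
        rw [Finset.sum_const, Finset.card_univ, Fintype.card_perm, c1, nsmul_eq_mul, mul_one,
          sub_self, abs_zero]
      · have h6 := card_one (J := B × Bool) (T := T) (by rw [hTc, h0]) hE hr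
        rw [h6, mul_zero] at h5
        have h7 : ∑ σ : Equiv.Perm (B × Bool), yf (pb (Cl E) (σ ∘ iT T)) = 0 := by
          rcases mul_eq_zero.1 h5 with h8 | h8
          · exact absurd h8 hD.ne'
          · exact h8
        simp only [ht, hex, h7, h0]
        simp
      · have h6 := card_two (J := B × Bool) (T := T) (by rw [hTc, h0]) hE hb hr
        rw [h6, ← hNdef] at h5
        rw [h0] at hD h5
        have h7 : ∑ σ : Equiv.Perm (B × Bool), yf (pb (Cl E) (σ ∘ iT T)) =
            (2 * m).factorial / ((2 * m).descFactorial 4) * N := by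
          rw [div_mul_eq_mul_div, eq_div_iff hD.ne', ← h5]
          ring
        simp only [ht, hex, h7, h0]
        simp
    · have h6 := term_bound hE hscal ha0 hN.le hric T (by omega)
      simp only [ht, hex, hbd, if_neg (by omega : ¬ T.card = 0), if_neg (by omega : ¬ T.card = 2),
        if_neg (by omega : ¬ T.card ≤ 2), sub_zero]
      rw [abs_mul, abs_of_nonneg (by positivity)]
      exact mul_le_mul_of_nonneg_left h6 (by positivity)
  -- sums
  have hsum : ∑ T : Finset B, ex T.card = κ ^ m * (2 * m).factorial *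
      (1 + (s * (2 * m)) ^ 2 / (8 * (2 * m - 1) * (2 * m - 3))) := by
    have h1 : ∑ T : Finset B, ex T.card = ∑ T ∈ (Finset.univ : Finset B).powerset, ex T.card := by
      rw [Finset.powerset_univ]
    rw [h1, Finset.sum_powerset_apply_card, Finset.card_univ, ← hm]
    have h2 : ∀ k ∈ Finset.range (m + 1), k ∉ ({0, 2} : Finset ℕ) → m.choose k • ex k = 0 := by
      intro k _ hk
      simp only [Finset.mem_insert, Finset.mem_singleton, not_or] at hk
      simp only [hex, if_neg hk.1, if_neg hk.2, smul_zero]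
    rw [← Finset.sum_subset (s₁ := ({0, 2} : Finset ℕ)) (by
      intro k hk
      simp only [Finset.mem_insert, Finset.mem_singleton] at hk
      rw [Finset.mem_range]
      omega) h2]
    rw [Finset.sum_pair (by norm_num)]
    obtain ⟨n, hn⟩ := Nat.exists_eq_add_of_le hB
    have hD4 : (((2 * m).descFactorial 4 : ℕ) : ℝ) = 2 * m * (2 * m - 1) * (2 * m - 2) *
        (2 * m - 3) := by
      rw [hn]
      simp only [Nat.descFactorial, Nat.sub_zero]
      have e3 : 2 * (2 + n) - 3 = 2 * n + 1 := by omega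
      have e2 : 2 * (2 + n) - 2 = 2 * n + 2 := by omega
      have e1 : 2 * (2 + n) - 1 = 2 * n + 3 := by omega
      rw [e1, e2, e3]
      push_cast
      ring
    have hch : ((m.choose 2 : ℕ) : ℝ) = m * (m - 1) / 2 := by
      rw [Nat.cast_choose_two]
    have hκ2 : κ ^ m = κ ^ (m - 2) * κ ^ 2 := by rw [← pow_add, Nat.sub_add_cancel hB]
    simp only [hex, if_true, Nat.choose_zero_right, one_smul, nsmul_eq_mul,
      if_neg (by norm_num : ¬ (2 : ℕ) = 0)]
    rw [hD4, hch, hN, hκ2]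
    have p1 : (0 : ℝ) < 2 * m - 1 := by linarith
    have p2 : (0 : ℝ) < 2 * m - 2 := by linarith
    have p3 : (0 : ℝ) < 2 * m - 3 := by linarith
    have p4 : (0 : ℝ) < m := by linarith
    have e4 : (2 * m - 2 : ℝ) = 2 * (m - 1) := by ring
    have p5 : (0 : ℝ) < m - 1 := by linarith
    rw [e4]
    field_simp
    ring
  rw [Yf_expand, ← hsum, ← Finset.sum_sub_distrib]
  refine (Finset.abs_sum_le_sum_abs _ _).trans ?_
  refine (Finset.sum_le_sum fun T _ => hterm T).trans ?_
  have h1 : ∑ T : Finset B, bd T.card = ∑ T ∈ (Finset.univ : Finset B).powerset, bd T.card := by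
    rw [Finset.powerset_univ]
  rw [h1, Finset.sum_powerset_apply_card, Finset.card_univ, ← hm]
  obtain ⟨n, hn⟩ := Nat.exists_eq_add_of_le hB
  have hrange : ∑ k ∈ Finset.range (m + 1), m.choose k • bd k =
      ∑ k ∈ Finset.range n, m.choose (k + 3) • bd (k + 3) := by
    rw [show m + 1 = n + 3 by omega, Finset.sum_range_succ', Finset.sum_range_succ',
      Finset.sum_range_succ']
    have b0 : bd 0 = 0 := by simp only [hbd, if_pos (by omega : 0 ≤ 2)]
    have b1 : bd (0 + 1) = 0 := by simp only [hbd, if_pos (by omega : 0 + 1 ≤ 2)]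
    have b2 : bd (0 + 1 + 1) = 0 := by simp only [hbd, if_pos (by omega : 0 + 1 + 1 ≤ 2)]
    rw [b0, b1, b2]
    simp only [smul_zero, add_zero]
  rw [hrange]
  have h9 : ∀ k ∈ Finset.range n, (m.choose (k + 3)) • bd (k + 3) ≤
      (κ ^ m * (2 * m).factorial) * (2 / Real.exp 1 ^ 2 *
      (2700 * Real.exp 1 ^ 5 * s) ^ (k + 3)) := by
    intro k hk
    have hkm : k + 3 ≤ m := by
      have := Finset.mem_range.mp hk
      omega
    have := term_le' m (k + 3) (by omega) hkm κ hκ s hs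
    rw [nsmul_eq_mul]
    simp only [hbd, if_neg (by omega : ¬ k + 3 ≤ 2)]
    exact this
  refine (Finset.sum_le_sum h9).trans ?_
  rw [← Finset.mul_sum]
  refine mul_le_mul_of_nonneg_left ?_ (by positivity)
  rw [← Finset.mul_sum]
  have h10 := geo_tail (2700 * Real.exp 1 ^ 5 * s) (by positivity) hq n
  have h11 : 0 < 2 / Real.exp 1 ^ 2 := by positivity
  calc 2 / Real.exp 1 ^ 2 * ∑ k ∈ Finset.range n, (2700 * Real.exp 1 ^ 5 * s) ^ (k + 3)
      ≤ 2 / Real.exp 1 ^ 2 * (2 * (2700 * Real.exp 1 ^ 5 * s) ^ 3) :=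
        mul_le_mul_of_nonneg_left h10 h11.le
    _ = _ := by ring

end

end Pool.Agent.Q188.EinN
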