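import Pool.Agent.Q188.EinN.Bnd

/-!
# The integrand of Einstein curvature tensors close to constant curvature
-/

set_option autoImplicit false

namespace Pool.Agent.Q188.EinN

open Finset Pool.Agent.W666.GB

variable {V : Type} [NormedAddCommGroup V] [InnerProductSpace ℝ V] {m : ℕ}

/-- the squared norm of the difference of `R` and the curvature tensor of constant curvature `c`:
for `Ric = (2 m - 1) c` the squared norm of the Weyl tensor -/
noncomputable def weylSq (e : OrthonormalBasis (Fin m × Bool) ℝ V) (R : V → V → V → V → ℝ)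
    (c : ℝ) : ℝ :=
  ∑ i, ∑ j, ∑ k, ∑ l, (R (e i) (e j) (e k) (e l) -
    c * (inner ℝ (e i) (e k) * inner ℝ (e j) (e l) -
      inner ℝ (e i) (e l) * inner ℝ (e j) (e k))) ^ 2

variable (e : OrthonormalBasis (Fin m × Bool) ℝ V) {R : V → V → V → V → ℝ}

theorem weylSq_ET (R : V → V → V → V → ℝ) (c : ℝ) :
    weylSq e R c = ∑ i, ∑ j, ∑ k, ∑ l, ET R (-c) (e i) (e j) (e k) (e l) ^ 2 := by
  unfold weylSq
  refine Finset.sum_congr rfl fun i _ => Finset.sum_congr rfl fun j _ =>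
    Finset.sum_congr rfl fun k _ => Finset.sum_congr rfl fun l _ => ?_
  simp only [ET]
  ring

theorem weylSq_EE (R : V → V → V → V → ℝ) (κ : ℝ) :
    weylSq e R (-κ) = ∑ i, ∑ j, ∑ k, ∑ l, EE e R κ i j k l ^ 2 := by
  rw [weylSq_ET, neg_neg]
  simp only [EE_eq]

theorem weylSq_nonneg (R : V → V → V → V → ℝ) (c : ℝ) : 0 ≤ weylSq e R c := by
  unfold weylSq
  positivity

theorem weylSq_neg (R : V → V → V → V → ℝ) (c : ℝ) :
    weylSq e (fun x y z w => - R x y z w) c = weylSq e R (-c) := by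
  unfold weylSq
  refine Finset.sum_congr rfl fun i _ => Finset.sum_congr rfl fun j _ =>
    Finset.sum_congr rfl fun k _ => Finset.sum_congr rfl fun l _ => ?_
  ring

/-- an algebraic curvature tensor which vanishes on a basis vanishes -/
theorem zero_of_basis {S : V → V → V → V → ℝ} (hS : AlgCurv S)
    (h : ∀ i j k l, S (e i) (e j) (e k) (e l) = 0) (x y z w : V) : S x y z w = 0 := by
  have lin : ∀ f : V →ₗ[ℝ] ℝ, (∀ i, f (e i) = 0) → ∀ u, f u = 0 := by
    intro f hf u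
    have : f = 0 := e.toBasis.ext fun i => by simpa using hf i
    rw [this]
    rfl
  have h4 : ∀ i j k w, S (e i) (e j) (e k) w = 0 := fun i j k w =>
    lin { toFun := fun w => S (e i) (e j) (e k) w
          map_add' := fun w w' => hS.add4 _ _ _ _ _
          map_smul' := fun t w => hS.smul4 _ _ _ _ _ } (fun l => h i j k l) w
  have h3 : ∀ i j z w, S (e i) (e j) z w = 0 := fun i j z w =>
    lin { toFun := fun z => S (e i) (e j) z w
          map_add' := fun z z' => hS.add3 _ _ _ _ _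
          map_smul' := fun t z => hS.smul3 _ _ _ _ _ } (fun k => h4 i j k w) z
  have h2 : ∀ i y z w, S (e i) y z w = 0 := fun i y z w =>
    lin { toFun := fun y => S (e i) y z w
          map_add' := fun y y' => hS.add2 _ _ _ _ _
          map_smul' := fun t y => hS.smul2 _ _ _ _ _ } (fun j => h3 i j z w) y
  exact lin { toFun := fun x => S x y z w
              map_add' := fun x x' => hS.add _ _ _ _ _
              map_smul' := fun t x => hS.smul _ _ _ _ _ } (fun i => h2 i y z w) x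

theorem weylSq_zero (hR : AlgCurv R) {c : ℝ} (h : weylSq e R c = 0) (x y z w : V) :
    R x y z w = c * (inner ℝ x z * inner ℝ y w - inner ℝ x w * inner ℝ y z) := by
  rw [weylSq_ET] at h
  have h0 : ∀ i j k l, ET R (-c) (e i) (e j) (e k) (e l) = 0 := by
    intro a b p q
    have h1 := (Finset.sum_eq_zero_iff_of_nonneg fun a _ => by positivity).1 h a (Finset.mem_univ _)
    have h2 := (Finset.sum_eq_zero_iff_of_nonneg fun a _ => by positivity).1 h1 b (Finset.mem_univ _)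
    have h3 := (Finset.sum_eq_zero_iff_of_nonneg fun a _ => by positivity).1 h2 p (Finset.mem_univ _)
    have h4 := (Finset.sum_eq_zero_iff_of_nonneg fun a _ => by positivity).1 h3 q (Finset.mem_univ _)
    exact (pow_eq_zero_iff two_ne_zero).1 h4
  have h1 := zero_of_basis e (ET_curv hR (-c)) h0 x y z w
  simp only [ET] at h1
  linarith

/-- `2700 e⁵` -/
noncomputable def Q : ℝ := 2700 * Real.exp 1 ^ 5

theorem Q_ge : 1 ≤ Q := by
  unfold Q
  have h : 1 ≤ Real.exp 1 := Real.one_le_exp (by norm_num)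
  have : 1 ≤ Real.exp 1 ^ 5 := one_le_pow₀ h
  linarith

/-- **the expansion to second order**, negative case -/
theorem core_neg (hm : 2 ≤ m) (hR : AlgCurv R) {κ : ℝ} (hκ : 0 < κ)
    (hE : ∀ v w : V, ∑ i, R (e i) v (e i) w = -((2 * m - 1) * κ * inner ℝ v w))
    (hq : Q * (Real.sqrt (weylSq e R (-κ)) / (2 * m * κ)) ≤ 1 / 2) :
    |(-1) ^ m * gbc e R - roundGB m κ *
      (1 + weylSq e R (-κ) / (8 * (2 * m - 1) * (2 * m - 3) * κ ^ 2))| ≤
      roundGB m κ * (Q * (Real.sqrt (weylSq e R (-κ)) / (2 * m * κ))) ^ 3 := by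
  have hmR : (2 : ℝ) ≤ m := by exact_mod_cast hm
  have hm0 : (0 : ℝ) < m := by linarith
  set N := weylSq e R (-κ) with hN
  have hN0 : 0 ≤ N := weylSq_nonneg e R _
  set s := Real.sqrt N / (2 * m * κ) with hs
  have hs0 : 0 ≤ s := by positivity
  have hsN : (s * κ * (2 * m)) ^ 2 = N := by
    have : s * κ * (2 * m) = Real.sqrt N := by
      rw [hs]; field_simp
    rw [this, Real.sq_sqrt hN0]
  have hsym := EE_sym e hR κ
  have hbi : ∀ a b c d, EE e R κ a b c d + EE e R κ a c d b + EE e R κ a d b c = 0 := by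
    intro a b c d
    simp only [EE_eq]
    have h1 := (ET_curv hR κ)
    have h2 := h1.bianchi (e b) (e c) (e d) (e a)
    have p1 := h1.pair (e a) (e b) (e c) (e d)
    have p2 := h1.pair (e a) (e c) (e d) (e b)
    have p3 := h1.pair (e a) (e d) (e b) (e c)
    have q1 := h1.a34 (e c) (e d) (e a) (e b)
    have q2 := h1.a34 (e d) (e b) (e a) (e c)
    have q3 := h1.a34 (e b) (e c) (e a) (e d)
    linarith
  have hric : ∀ j l, ricc (EE e R κ) j l = 0 := by
    intro j l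
    rw [ricc_EE, hE, inner_e]
    split_ifs <;> ring
  have h1 := expand_two (B := Fin m) hsym hbi hric hκ hs0 (by simpa using hm)
    (by rw [Fintype.card_fin, hsN, hN, weylSq_EE]) hq
  rw [Fintype.card_fin] at h1
  have hπ := Real.pi_pos
  have hr : roundGB m κ = 2 ^ m / ((8 * Real.pi) ^ m * m.factorial) *
      (κ ^ m * (2 * m).factorial) := by
    unfold roundGB
    have : (8 * Real.pi) ^ m = 2 ^ m * (4 * Real.pi) ^ m := by
      rw [← mul_pow]; congr 1; ring
    rw [this]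
    field_simp
  have hc : 0 < 2 ^ m / ((8 * Real.pi) ^ m * (m.factorial : ℝ)) := by positivity
  have e2 : N / (8 * (2 * m - 1) * (2 * m - 3) * κ ^ 2) =
      (s * (2 * m)) ^ 2 / (8 * (2 * m - 1) * (2 * m - 3)) := by
    have p1 : (0 : ℝ) < 2 * m - 1 := by linarith
    have p3 : (0 : ℝ) < 2 * m - 3 := by linarith
    rw [← hsN]
    field_simp
  have h2 := mul_le_mul_of_nonneg_left h1 hc.le
  rw [← abs_of_pos hc, ← abs_mul, abs_of_pos hc, mul_sub] at h2
  rw [neg_gbc_eq e hR κ, e2, hr]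
  have e3 : 2 ^ m / ((8 * Real.pi) ^ m * (m.factorial : ℝ)) * (κ ^ m * (2 * m).factorial *
      (1 + (s * (2 * m)) ^ 2 / (8 * (2 * m - 1) * (2 * m - 3)))) =
      2 ^ m / ((8 * Real.pi) ^ m * m.factorial) *
      (κ ^ m * (2 * m).factorial) * (1 + (s * (2 * m)) ^ 2 / (8 * (2 * m - 1) * (2 * m - 3))) := by
    ring
  rw [e3] at h2
  refine h2.trans ?_
  have h4 : 4 / Real.exp 1 ^ 2 ≤ 1 := by
    rw [div_le_one (by positivity)]
    have : (2 : ℝ) ≤ Real.exp 1 := by
      have := Real.exp_one_gt_d9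
      linarith
    nlinarith
  have h5 : 4 / Real.exp 1 ^ 2 * (2700 * Real.exp 1 ^ 5 * s) ^ 3 ≤ (Q * s) ^ 3 := by
    have h6 : 0 ≤ (Q * s) ^ 3 := by
      have := Q_ge
      positivity
    have h7 := mul_le_mul_of_nonneg_right h4 h6
    unfold Q at h7 ⊢
    linarith
  have h8 : 0 ≤ 2 ^ m / ((8 * Real.pi) ^ m * (m.factorial : ℝ)) * (κ ^ m * (2 * m).factorial) := by
    positivity
  have h9 := mul_le_mul_of_nonneg_left h5 h8
  linarith

/-- the comparison of the remainder with the second term -/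
theorem rem_le (hm : 2 ≤ m) {κ : ℝ} (hκ : 0 < κ) {N : ℝ} (hN0 : 0 ≤ N) :
    (Q * (Real.sqrt N / (2 * m * κ))) ^ 3 ≤ 8 * Q ^ 3 * (Real.sqrt N / (2 * m * κ)) *
      (N / (8 * (2 * m - 1) * (2 * m - 3) * κ ^ 2)) := by
  have hmR : (2 : ℝ) ≤ m := by exact_mod_cast hm
  have hm0 : (0 : ℝ) < m := by linarith
  set s := Real.sqrt N / (2 * m * κ) with hs
  have hs0 : 0 ≤ s := by positivity
  have hsN : (s * κ * (2 * m)) ^ 2 = N := by
    have : s * κ * (2 * m) = Real.sqrt N := by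
      rw [hs]; field_simp
    rw [this, Real.sq_sqrt hN0]
  have p1 : (0 : ℝ) < 2 * m - 1 := by linarith
  have p3 : (0 : ℝ) < 2 * m - 3 := by linarith
  have e2 : N / (8 * (2 * m - 1) * (2 * m - 3) * κ ^ 2) =
      (s * (2 * m)) ^ 2 / (8 * (2 * m - 1) * (2 * m - 3)) := by
    rw [← hsN]
    field_simp
  have h1 : s ^ 2 / 8 ≤ (s * (2 * m)) ^ 2 / (8 * (2 * m - 1) * (2 * m - 3)) := by
    rw [div_le_div_iff₀ (by norm_num) (by positivity)]
    have : (2 * m - 1) * (2 * m - 3) ≤ (2 * (m : ℝ)) ^ 2 := by nlinarith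
    have h2 := mul_le_mul_of_nonneg_left this (by positivity : 0 ≤ 8 * s ^ 2)
    nlinarith
  rw [e2]
  have hQ := Q_ge
  have h2 : 0 ≤ 8 * Q ^ 3 * s := by positivity
  have h3 := mul_le_mul_of_nonneg_left h1 h2
  calc (Q * s) ^ 3 = 8 * Q ^ 3 * s * (s ^ 2 / 8) := by ring
    _ ≤ _ := h3

/-- the general pointwise statement, negative case -/
theorem pt_neg (hm : 2 ≤ m) (hR : AlgCurv R) {κ : ℝ} (hκ : 0 < κ)
    (hE : ∀ v w : V, ∑ i, R (e i) v (e i) w = -((2 * m - 1) * κ * inner ℝ v w))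
    (hN : weylSq e R (-κ) ≤ (1 / (16 * Q ^ 3) * κ * (2 * m)) ^ 2) :
    |(-1) ^ m * gbc e R - roundGB m κ *
      (1 + weylSq e R (-κ) / (8 * (2 * m - 1) * (2 * m - 3) * κ ^ 2))| ≤
      8 * Q ^ 3 * (Real.sqrt (weylSq e R (-κ)) / (2 * m * κ)) *
        (roundGB m κ * (weylSq e R (-κ) / (8 * (2 * m - 1) * (2 * m - 3) * κ ^ 2))) ∧
    8 * Q ^ 3 * (Real.sqrt (weylSq e R (-κ)) / (2 * m * κ)) ≤ 1 / 2 := by
  have hmR : (2 : ℝ) ≤ m := by exact_mod_cast hm
  have hm0 : (0 : ℝ) < m := by linarith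
  have hQ := Q_ge
  have hQ0 : 0 < Q := by linarith
  have hN0 : 0 ≤ weylSq e R (-κ) := weylSq_nonneg e R _
  have hs1 : Real.sqrt (weylSq e R (-κ)) / (2 * m * κ) ≤ 1 / (16 * Q ^ 3) := by
    rw [div_le_iff₀ (by positivity)]
    have := Real.sqrt_le_sqrt hN
    rw [Real.sqrt_sq (by positivity)] at this
    linarith
  have hs0 : 0 ≤ Real.sqrt (weylSq e R (-κ)) / (2 * m * κ) := by positivity
  have h1 : 8 * Q ^ 3 * (Real.sqrt (weylSq e R (-κ)) / (2 * m * κ)) ≤ 1 / 2 := by
    have h2 := mul_le_mul_of_nonneg_left hs1 (by positivity : 0 ≤ 8 * Q ^ 3)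
    have h3 : 8 * Q ^ 3 * (1 / (16 * Q ^ 3)) = 1 / 2 := by field_simp; norm_num
    linarith
  have hq : Q * (Real.sqrt (weylSq e R (-κ)) / (2 * m * κ)) ≤ 1 / 2 := by
    have h2 : Q ≤ 8 * Q ^ 3 := by nlinarith [mul_self_nonneg (Q - 1), pow_pos hQ0 3, sq_nonneg Q]
    have := mul_le_mul_of_nonneg_right h2 hs0
    linarith
  refine ⟨?_, h1⟩
  refine (core_neg e hm hR hκ hE hq).trans ?_
  have h4 := rem_le hm hκ hN0
  have h5 := (roundGB_pos (m := m) hκ).le
  have h6 := mul_le_mul_of_nonneg_left h4 h5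
  linarith

theorem neg_curv (hR : AlgCurv R) : AlgCurv (fun x y z w => - R x y z w) where
  add x x' y z w := by rw [hR.add]; ring
  smul t x y z w := by rw [hR.smul]; ring
  anti x y z w := by rw [hR.anti]
  pair x y z w := by rw [hR.pair]
  bianchi x y z w := by
    have := hR.bianchi x y z w
    linarith

theorem gbc_neg (R : V → V → V → V → ℝ) :
    gbc e (fun x y z w => - R x y z w) = (-1) ^ m * gbc e R := by
  unfold gbc
  have h2 : ∀ σ τ : Equiv.Perm (Fin m × Bool), ∏ b : Fin m,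
      -R (e (σ (b, false))) (e (σ (b, true))) (e (τ (b, false))) (e (τ (b, true))) =
      (-1) ^ m * ∏ b : Fin m,
        R (e (σ (b, false))) (e (σ (b, true))) (e (τ (b, false))) (e (τ (b, true))) := by
    intro σ τ
    rw [Finset.prod_neg, Finset.card_univ, Fintype.card_fin]
  simp only [h2, Finset.mul_sum]
  refine Finset.sum_congr rfl fun σ _ => Finset.sum_congr rfl fun τ _ => ?_
  ring

/-- both signs -/
theorem pt (hm : 2 ≤ m) (hR : AlgCurv R) {s κ : ℝ} (hs : s = 1 ∨ s = -1) (hκ : 0 < κ)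
    (hE : ∀ v w : V, ∑ i, R (e i) v (e i) w = (2 * m - 1) * (s * κ) * inner ℝ v w)
    (hN : weylSq e R (s * κ) ≤ (1 / (16 * Q ^ 3) * κ * (2 * m)) ^ 2) :
    |s ^ m * gbc e R - roundGB m κ *
      (1 + weylSq e R (s * κ) / (8 * (2 * m - 1) * (2 * m - 3) * κ ^ 2))| ≤
      8 * Q ^ 3 * (Real.sqrt (weylSq e R (s * κ)) / (2 * m * κ)) *
        (roundGB m κ * (weylSq e R (s * κ) / (8 * (2 * m - 1) * (2 * m - 3) * κ ^ 2))) ∧
    8 * Q ^ 3 * (Real.sqrt (weylSq e R (s * κ)) / (2 * m * κ)) ≤ 1 / 2 := by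
  rcases hs with rfl | rfl
  · have h1 := pt_neg e hm (neg_curv hR) hκ (fun v w => by
      rw [Finset.sum_neg_distrib, hE v w]
      ring) (by rw [weylSq_neg, neg_neg]; rw [one_mul] at hN; exact hN)
    rw [weylSq_neg, neg_neg, gbc_neg, ← mul_assoc, ← mul_pow] at h1
    norm_num at h1
    rw [one_pow, one_mul, one_mul]
    norm_num
    exact h1
  · have e1 : (-1 : ℝ) * κ = -κ := by ring
    rw [e1] at hN ⊢
    exact pt_neg e hm hR hκ (fun v w => by
      rw [hE v w]
      ring) hN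

/-- sectional curvatures close to a constant -/
theorem weyl_of_sec (hm : 0 < m) (hR : AlgCurv R) {κ c t : ℝ} (ht : 0 ≤ t) (hκ : 0 < κ)
    (h : ∀ x y : V, ‖x‖ = 1 → ‖y‖ = 1 → inner ℝ x y = 0 →
      |R x y x y - c| ≤ t * κ / Real.sqrt (2 * m)) :
    weylSq e R c ≤ (4 / 3 * t * κ * (2 * m)) ^ 2 := by
  set η : ℝ := t * κ / Real.sqrt (2 * m) with hη
  have hη0 : 0 ≤ η := by positivity
  have hE := ET_curv hR (-c)
  have hsE : SecIn (ET R (-c)) (-η) η := by
    intro x y hx hy hxy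
    have h3 := abs_le.1 (h x y hx hy hxy)
    have h4 : ET R (-c) x y x y = -(R x y x y - c) := by
      simp only [ET]
      rw [real_inner_self_eq_norm_sq, real_inner_self_eq_norm_sq, hxy, hx, hy]; ring
    rw [h4]
    constructor <;> linarith [h3.1, h3.2]
  have h5 := hE.hs_bound hη0 (hE.sec_all hη0 hsE) e
  have hcard : (Fintype.card (Fin m × Bool) : ℝ) = 2 * m := by
    rw [Fintype.card_prod, Fintype.card_fin, Fintype.card_bool]; push_cast; ring
  rw [hcard] at h5
  rw [weylSq_ET]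
  refine h5.trans (le_of_eq ?_)
  have hm' : (0 : ℝ) < m := by exact_mod_cast hm
  have hq : Real.sqrt (2 * m) ^ 2 = 2 * m := Real.sq_sqrt (by positivity)
  have h6 : η ^ 2 = t ^ 2 * κ ^ 2 / (2 * m) := by
    rw [hη, div_pow, hq, mul_pow]
  have h7 : (4 / 3 * η) ^ 2 = 16 / 9 * η ^ 2 := by ring
  rw [h7, h6]
  field_simp
  ring

end Pool.Agent.Q188.EinN
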