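import Pool.Agent.W666.GB.Main

/-!
# The first and the second term of the expansion for Ricci flat tensors
-/

set_option autoImplicit false

namespace Pool.Agent.Q188.EinN

open Finset Pool.Agent.W666.GB

section upd

variable {Ω ι : Type*} [Fintype Ω] [Fintype ι] [DecidableEq ι]

theorem sum_upd_zero (i₀ : ι) (G : (ι → Ω) → ℝ)
    (h : ∀ ω, ∑ v, G (Function.update ω i₀ v) = 0) : ∑ ω, G ω = 0 := by
  have h1 := av_resample i₀ G
  have h2 : ∀ ω, av (fun v => G (Function.update ω i₀ v)) = 0 := by
    intro ω
    rw [av, h ω, zero_div]
  simp only [h2] at h1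
  have h3 : av (fun _ : ι → Ω => (0 : ℝ)) = 0 := by simp [av]
  rw [h3, av, div_eq_zero_iff] at h1
  rcases h1 with h1 | h1
  · exact h1
  · have h4 : Fintype.card (ι → Ω) = 0 := by exact_mod_cast h1
    have : IsEmpty (ι → Ω) := Fintype.card_eq_zero_iff.1 h4
    simp

end upd

section contraction

variable {J : Type*} [Fintype J] {E : J → J → J → J → ℝ}

theorem self12 (hE : Sym4 E) (a b c : J) : E a a b c = 0 := by
  have := hE.a12 a a b c
  linarith

theorem self34 (hE : Sym4 E) (a b c : J) : E a b c c = 0 := by
  have := hE.a34 a b c c
  linarith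

theorem k1 (hE : Sym4 E) (hr : ∀ j l, ricc E j l = 0) (b y : J) : ∑ t, Cl E t t b y = 0 := by
  have h1 := hr b y
  have h2 := hr y b
  unfold ricc at h1 h2
  unfold Cl
  rw [← Finset.sum_div, Finset.sum_add_distrib, h1, h2]
  simp

theorem k2 (hE : Sym4 E) (hr : ∀ j l, ricc E j l = 0) (a x : J) : ∑ t, Cl E a x t t = 0 := by
  have h1 : ∑ t, E a t x t = 0 := by
    have := hr a x
    unfold ricc at this
    rw [← this]
    refine Finset.sum_congr rfl fun t _ => ?_
    rw [hE.a12 a t, hE.a34 t a x t, neg_neg]
  unfold Cl
  rw [← Finset.sum_div, Finset.sum_add_distrib, h1]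
  simp

theorem k3 (hE : Sym4 E) (hr : ∀ j l, ricc E j l = 0) (x b : J) : ∑ t, Cl E t x b t = 0 := by
  have h1 : ∑ t, E t b x t = 0 := by
    have := hr b x
    unfold ricc at this
    have h2 : ∑ t, E t b x t = - ∑ t, E t b t x := by
      rw [← Finset.sum_neg_distrib]
      exact Finset.sum_congr rfl fun t _ => hE.a34 _ _ _ _
    rw [h2, this, neg_zero]
  have h2 : ∑ t, E t t x b = 0 := Finset.sum_eq_zero fun t _ => self12 hE t x b
  unfold Cl
  rw [← Finset.sum_div, Finset.sum_add_distrib, h1, h2]
  simp

theorem k4 (hE : Sym4 E) (hr : ∀ j l, ricc E j l = 0) (a y : J) : ∑ t, Cl E a t t y = 0 := by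
  have h1 : ∑ t, E a t t y = 0 := by
    have := hr a y
    unfold ricc at this
    have h2 : ∑ t, E a t t y = - ∑ t, E t a t y := by
      rw [← Finset.sum_neg_distrib]
      exact Finset.sum_congr rfl fun t _ => hE.a12 _ _ _ _
    rw [h2, this, neg_zero]
  have h2 : ∑ t, E a y t t = 0 := Finset.sum_eq_zero fun t _ => self34 hE a y t
  unfold Cl
  rw [← Finset.sum_div, Finset.sum_add_distrib, h1, h2]
  simp

end contraction

section vanish

variable {J : Type*} [Fintype J] {E : J → J → J → J → ℝ}
  {T : Type*} [Fintype T] [DecidableEq T]

/-- the term of a permutation, summed over all index maps -/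
noncomputable def AA (C : J → J → J → J → ℝ) (ρ : Equiv.Perm (T × Bool)) : ℝ :=
  ∑ i : T × Bool → J, ∏ b : T, C (i (b, false)) (i (ρ (b, false))) (i (b, true)) (i (ρ (b, true)))

theorem sum_yf (C : J → J → J → J → ℝ) :
    ∑ i : T × Bool → J, yf (pb C i) = ∑ ρ : Equiv.Perm (T × Bool), sn ρ * AA C ρ := by
  unfold yf AA pb
  rw [Finset.sum_comm]
  exact Finset.sum_congr rfl fun ρ _ => by rw [Finset.mul_sum]

/-- a permutation with a self-contraction contributes nothing -/
theorem AA_zero (hE : Sym4 E) (hr : ∀ j l, ricc E j l = 0) (ρ : Equiv.Perm (T × Bool)) (b : T)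
    (h : (ρ (b, false)).1 = b ∨ (ρ (b, true)).1 = b) : AA (Cl E) ρ = 0 := by
  -- the index which is contracted
  have key : ∀ (p : T × Bool) (f : J → (T × Bool → J) → ℝ),
      (∀ i, ∑ t, f t i = 0) →
      (∀ (t : J) i, ∏ c : T, Cl E (Function.update i p t (c, false))
        (Function.update i p t (ρ (c, false))) (Function.update i p t (c, true))
        (Function.update i p t (ρ (c, true))) = f t i) → AA (Cl E) ρ = 0 := by
    intro p f h1 h2
    unfold AA
    refine sum_upd_zero p _ fun i => ?_
    simp only [h2, h1]
  -- the value of the other factors does not depend on `p`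
  have other : ∀ (p : T × Bool) (i : T × Bool → J) (t : J), p.1 = b →
      (∃ q : T × Bool, q.1 = b ∧ ρ q = p) →
      ∏ c ∈ Finset.univ.erase b, Cl E (Function.update i p t (c, false))
        (Function.update i p t (ρ (c, false))) (Function.update i p t (c, true))
        (Function.update i p t (ρ (c, true))) =
      ∏ c ∈ Finset.univ.erase b, Cl E (i (c, false)) (i (ρ (c, false))) (i (c, true))
        (i (ρ (c, true))) := by
    intro p i t hp ⟨q, hq, hρ⟩
    refine Finset.prod_congr rfl fun c hc => ?_
    have hcb : c ≠ b := Finset.ne_of_mem_erase hc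
    have n1 : ∀ β : Bool, (c, β) ≠ p := by
      intro β h0
      exact hcb (by rw [← hp, ← h0])
    have n2 : ∀ β : Bool, ρ (c, β) ≠ p := by
      intro β h0
      rw [← hρ] at h0
      have := ρ.injective h0
      exact hcb (by rw [← hq, ← this])
    rw [Function.update_of_ne (n1 false), Function.update_of_ne (n1 true),
      Function.update_of_ne (n2 false), Function.update_of_ne (n2 true)]
  have split : ∀ (g : T → ℝ), ∏ c, g c = g b * ∏ c ∈ Finset.univ.erase b, g c := fun g =>
    (Finset.mul_prod_erase _ _ (Finset.mem_univ b)).symm
  have fin : ∀ (β γ : Bool), ρ (b, β) = (b, γ) → AA (Cl E) ρ = 0 := by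
    intro β γ hβ
    refine key (b, γ) (fun t i => Cl E (Function.update i (b, γ) t (b, false))
        (Function.update i (b, γ) t (ρ (b, false))) (Function.update i (b, γ) t (b, true))
        (Function.update i (b, γ) t (ρ (b, true))) *
        ∏ c ∈ Finset.univ.erase b, Cl E (i (c, false)) (i (ρ (c, false))) (i (c, true))
        (i (ρ (c, true)))) ?_ ?_
    · intro i
      rw [← Finset.sum_mul]
      have hne : ρ (b, !β) ≠ (b, γ) := by
        rw [← hβ]
        intro h0
        have h1 := ρ.injective h0
        have h2 := congrArg Prod.snd h1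
        cases β <;> simp at h2
      have hz : ∑ t, Cl E (Function.update i (b, γ) t (b, false))
        (Function.update i (b, γ) t (ρ (b, false))) (Function.update i (b, γ) t (b, true))
        (Function.update i (b, γ) t (ρ (b, true))) = 0 := by
        cases β <;> cases γ
        · -- ρ (b,false) = (b,false)
          rw [hβ]
          simp only [Function.update_self]
          have e1 : ∀ t : J, Function.update i (b, false) t (b, true) = i (b, true) := fun t =>
            Function.update_of_ne (by simp) _ _
          have e2 : ∀ t : J, Function.update i (b, false) t (ρ (b, true)) = i (ρ (b, true)) :=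
            fun t => Function.update_of_ne hne _ _
          simp only [e1, e2]
          exact k1 hE hr _ _
        · rw [hβ]
          simp only [Function.update_self]
          have e1 : ∀ t : J, Function.update i (b, true) t (b, false) = i (b, false) := fun t =>
            Function.update_of_ne (by simp) _ _
          have e2 : ∀ t : J, Function.update i (b, true) t (ρ (b, true)) = i (ρ (b, true)) :=
            fun t => Function.update_of_ne hne _ _
          simp only [e1, e2]
          exact k4 hE hr _ _
        · rw [hβ]
          simp only [Function.update_self]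
          have e1 : ∀ t : J, Function.update i (b, false) t (b, true) = i (b, true) := fun t =>
            Function.update_of_ne (by simp) _ _
          have e2 : ∀ t : J, Function.update i (b, false) t (ρ (b, false)) = i (ρ (b, false)) :=
            fun t => Function.update_of_ne hne _ _
          simp only [e1, e2]
          exact k3 hE hr _ _
        · rw [hβ]
          simp only [Function.update_self]
          have e1 : ∀ t : J, Function.update i (b, true) t (b, false) = i (b, false) := fun t =>
            Function.update_of_ne (by simp) _ _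
          have e2 : ∀ t : J, Function.update i (b, true) t (ρ (b, false)) = i (ρ (b, false)) :=
            fun t => Function.update_of_ne hne _ _
          simp only [e1, e2]
          exact k2 hE hr _ _
      rw [hz, zero_mul]
    · intro t i
      rw [split]
      congr 1
      exact other (b, γ) i t rfl ⟨(b, β), rfl, hβ⟩
  rcases h with h | h
  · exact fin false (ρ (b, false)).2 (Prod.ext h rfl)
  · exact fin true (ρ (b, true)).2 (Prod.ext h rfl)

end vanish

end Pool.Agent.Q188.EinN
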