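import Pool.Agent.Q188.EinN.Two

/-!
# The value of the second term for Ricci flat curvature tensors
-/

set_option autoImplicit false

namespace Pool.Agent.Q188.EinN

open Finset Pool.Agent.W666.GB

section transport

variable {T T' : Type*} [Fintype T] [DecidableEq T] [Fintype T'] [DecidableEq T']
  {J : Type*} [Fintype J] [DecidableEq J]

omit [Fintype J] [DecidableEq J] in
theorem yf_congr (f : T' ≃ T) (C : J → J → J → J → ℝ) (i : T' × Bool → J) :
    yf (pb C (fun p : T × Bool => i (f.symm p.1, p.2))) = yf (pb C i) := by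
  unfold yf
  let g : T' × Bool ≃ T × Bool := f.prodCongr (Equiv.refl Bool)
  rw [← Equiv.sum_comp (g.permCongr)]
  refine Finset.sum_congr rfl fun ρ _ => ?_
  have h1 : sn (g.permCongr ρ) = sn ρ := by
    unfold sn
    rw [Equiv.Perm.sign_permCongr]
  rw [h1]
  congr 1
  rw [← Equiv.prod_comp f]
  refine Finset.prod_congr rfl fun b _ => ?_
  simp only [pb]
  have h2 : ∀ β : Bool, g.permCongr ρ (f b, β) = (f (ρ (b, β)).1, (ρ (b, β)).2) := by
    intro β
    simp [g, Equiv.permCongr_apply, Equiv.prodCongr_apply]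
    rfl
  simp only [h2, Equiv.symm_apply_apply]

theorem sum_congr_T (f : T' ≃ T) (C : J → J → J → J → ℝ) :
    ∑ i : T × Bool → J, yf (pb C i) = ∑ i : T' × Bool → J, yf (pb C i) := by
  let g : T' × Bool ≃ T × Bool := f.prodCongr (Equiv.refl Bool)
  rw [← Equiv.sum_comp (Equiv.arrowCongr g (Equiv.refl J))]
  refine Finset.sum_congr rfl fun i _ => ?_
  rw [← yf_congr f C i]
  rfl

end transport

section two

abbrev P2 : Type := Fin 2 × Bool

/-- swaps of the pairs -/
def r1 : Equiv.Perm P2 := Equiv.swap (0, false) (1, false) * Equiv.swap (0, true) (1, true)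
def r2 : Equiv.Perm P2 := r1 * Equiv.swap (1, false) (1, true)
def r3 : Equiv.Perm P2 := r1 * Equiv.swap (0, false) (0, true)
def r4 : Equiv.Perm P2 := Equiv.swap (0, false) (1, true) * Equiv.swap (0, true) (1, false)

theorem rest : ∀ ρ : Equiv.Perm P2, ρ ∉ ({r1, r2, r3, r4} : Finset (Equiv.Perm P2)) →
    ∃ b : Fin 2, (ρ (b, false)).1 = b ∨ (ρ (b, true)).1 = b := by
  decide +kernel

theorem s1 : Equiv.Perm.sign r1 = 1 := by decide +kernel
theorem s2 : Equiv.Perm.sign r2 = -1 := by decide +kernel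
theorem s3 : Equiv.Perm.sign r3 = -1 := by decide +kernel
theorem s4 : Equiv.Perm.sign r4 = 1 := by decide +kernel

variable {J : Type*} [Fintype J] [DecidableEq J] {E : J → J → J → J → ℝ}

/-- maps of the four positions -/
def quadr : (P2 → J) ≃ J × J × J × J where
  toFun i := (i (0, false), i (0, true), i (1, false), i (1, true))
  invFun q := fun p => if p = (0, false) then q.1 else if p = (0, true) then q.2.1
    else if p = (1, false) then q.2.2.1 else q.2.2.2
  left_inv i := by
    funext p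
    rcases p with ⟨a, b⟩
    fin_cases a <;> cases b <;> simp
  right_inv q := by
    simp

omit [DecidableEq J] in
theorem sum_four (F : J → J → J → J → ℝ) :
    ∑ i : P2 → J, F (i (0, false)) (i (0, true)) (i (1, false)) (i (1, true)) =
      ∑ a, ∑ b, ∑ c, ∑ d, F a b c d := by
  have h := Fintype.sum_equiv quadr
    (fun i : P2 → J => F (i (0, false)) (i (0, true)) (i (1, false)) (i (1, true)))
    (fun q : J × J × J × J => F q.1 q.2.1 q.2.2.1 q.2.2.2) (fun i => rfl)
  rw [h]
  simp only [Fintype.sum_prod_type]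

theorem two_value (hE : Sym4 E) (hb : ∀ a b c d, E a b c d + E a c d b + E a d b c = 0)
    (hr : ∀ j l, ricc E j l = 0) :
    ∑ i : P2 → J, yf (pb (Cl E) i) = ∑ a, ∑ b, ∑ c, ∑ d, E a b c d ^ 2 := by
  rw [sum_yf]
  have h1 : ∑ ρ : Equiv.Perm P2, sn ρ * AA (J := J) (Cl E) ρ =
      ∑ ρ ∈ ({r1, r2, r3, r4} : Finset (Equiv.Perm P2)), sn ρ * AA (Cl E) ρ := by
    symm
    refine Finset.sum_subset (Finset.subset_univ _) fun ρ _ hρ => ?_
    obtain ⟨b, hb⟩ := rest ρ hρ
    rw [AA_zero hE hr ρ b hb, mul_zero]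
  rw [h1, Finset.sum_insert (by decide +kernel), Finset.sum_insert (by decide +kernel),
    Finset.sum_insert (by decide +kernel), Finset.sum_singleton]
  have t1 : sn r1 = 1 := by simp [sn, s1]
  have t2 : sn r2 = -1 := by simp [sn, s2]
  have t3 : sn r3 = -1 := by simp [sn, s3]
  have t4 : sn r4 = 1 := by simp [sn, s4]
  rw [t1, t2, t3, t4]
  have v1 : AA (J := J) (Cl E) r1 = ∑ i : P2 → J, Cl E (i (0, false)) (i (1, false)) (i (0, true))
      (i (1, true)) * Cl E (i (1, false)) (i (0, false)) (i (1, true)) (i (0, true)) := by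
    unfold AA
    refine Finset.sum_congr rfl fun i _ => ?_
    rw [Fin.prod_univ_two]
    rfl
  have v2 : AA (J := J) (Cl E) r2 = ∑ i : P2 → J, Cl E (i (0, false)) (i (1, false)) (i (0, true))
      (i (1, true)) * Cl E (i (1, false)) (i (0, true)) (i (1, true)) (i (0, false)) := by
    unfold AA
    refine Finset.sum_congr rfl fun i _ => ?_
    rw [Fin.prod_univ_two]
    rfl
  have v3 : AA (J := J) (Cl E) r3 = ∑ i : P2 → J, Cl E (i (0, false)) (i (1, true)) (i (0, true))
      (i (1, false)) * Cl E (i (1, false)) (i (0, false)) (i (1, true)) (i (0, true)) := by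
    unfold AA
    refine Finset.sum_congr rfl fun i _ => ?_
    rw [Fin.prod_univ_two]
    rfl
  have v4 : AA (J := J) (Cl E) r4 = ∑ i : P2 → J, Cl E (i (0, false)) (i (1, true)) (i (0, true))
      (i (1, false)) * Cl E (i (1, false)) (i (0, true)) (i (1, true)) (i (0, false)) := by
    unfold AA
    refine Finset.sum_congr rfl fun i _ => ?_
    rw [Fin.prod_univ_two]
    rfl
  rw [v1, v2, v3, v4]
  have key : ∀ a b c d, 1 * (Cl E a c b d * Cl E c a d b) + (-1 * (Cl E a c b d * Cl E c b d a) +
      (-1 * (Cl E a d b c * Cl E c a d b) + 1 * (Cl E a d b c * Cl E c b d a))) =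
      E a b c d ^ 2 := by
    intro a b c d
    have p1 := hE.pair c d a b
    have p2 := hE.pair c b a d
    have p3 := hE.pair c d b a
    have p4 := hE.pair c a b d
    have q1 := hE.a12 b a c d
    have q2 := hE.a34 a b d c
    have q3 := hE.a34 a d c b
    have q4 := hE.pair a d c b
    have q5 := hE.pair c a b d
    have q6 := hE.a12 b d c a
    have q7 := hE.a34 d b c a
    have q8 := hE.pair d b a c
    have b1 := hb a b c d
    unfold Cl
    rw [p1, p3, q1, q2]
    have e1 : E c b a d = E a d c b := p2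
    have e2 : E c a b d = E a c d b := by linarith
    rw [e1, e2, q3]
    have e3 : E a d b c = -(E a b c d + E a c d b) := by linarith
    rw [e3]
    ring
  rw [← sum_four (fun a b c d => E a b c d ^ 2)]
  simp only [← key, Finset.sum_add_distrib, ← Finset.mul_sum]

variable {T : Type*} [Fintype T] [DecidableEq T]

theorem card_two (hT : Fintype.card T = 2) (hE : Sym4 E)
    (hb : ∀ a b c d, E a b c d + E a c d b + E a d b c = 0) (hr : ∀ j l, ricc E j l = 0) :
    ∑ i : T × Bool → J, yf (pb (Cl E) i) = ∑ a, ∑ b, ∑ c, ∑ d, E a b c d ^ 2 := by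
  have f : Fin 2 ≃ T := (Fintype.equivFinOfCardEq hT).symm
  rw [sum_congr_T f, two_value hE hb hr]

theorem card_one (hT : Fintype.card T = 1) (hE : Sym4 E) (hr : ∀ j l, ricc E j l = 0) :
    ∑ i : T × Bool → J, yf (pb (Cl E) i) = 0 := by
  rw [sum_yf]
  refine Finset.sum_eq_zero fun ρ _ => ?_
  obtain ⟨b, hb⟩ := Fintype.card_eq_one_iff.1 hT
  rw [AA_zero hE hr ρ b (Or.inl (hb _)), mul_zero]

end two

end Pool.Agent.Q188.EinN
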